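import Pool.Agent.V11113.Cog.Decay

/-!
# The unitary semigroup
-/

set_option autoImplicit false
open Set MeasureTheory Filter Topology
open scoped ComplexOrder

namespace Pool.Agent.V11113.Cog

/-- the Hilbert space -/
abbrev H : Type := st.GNS

/-- the representation -/
noncomputable def rep : C(X, ℂ) →⋆ₐ[ℂ] (H →L[ℂ] H) := st.gnsStarAlgHom

lemma rep_norm_le (f : C(X, ℂ)) : ‖rep f‖ ≤ ‖f‖ := NonUnitalStarAlgHom.norm_apply_le rep f

/-- action on a vector -/
noncomputable def act (z : H) : C(X, ℂ) →L[ℂ] H :=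
  LinearMap.mkContinuous
    { toFun := fun f => rep f z
      map_add' := fun f g => by rw [map_add]; rfl
      map_smul' := fun c f => by rw [map_smul]; rfl } ‖z‖ (fun f => by
        show ‖rep f z‖ ≤ ‖z‖ * ‖f‖
        refine ((rep f).le_opNorm z).trans ?_
        rw [mul_comm]
        exact mul_le_mul_of_nonneg_left (rep_norm_le f) (norm_nonneg _))

lemma act_apply (z : H) (f : C(X, ℂ)) : act z f = rep f z := rfl

lemma e_zero : e 0 = 1 := by
  ext x
  rw [e_apply, zero_mul, Complex.ofReal_zero, mul_zero, Complex.exp_zero]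
  rfl

lemma e_add (s t : ℝ) : e (s + t) = e s * e t := by
  ext x
  rw [ContinuousMap.mul_apply, e_apply, e_apply, e_apply, ← Complex.exp_add]
  congr 1
  push_cast
  ring

lemma star_e (t : ℝ) : star (e t) = e (-t) := by
  ext x
  rw [ContinuousMap.star_apply, e_apply, e_apply, Complex.star_def, ← Complex.exp_conj, map_mul,
    Complex.conj_I, Complex.conj_ofReal]
  congr 1
  push_cast
  ring

lemma norm_e_le (t : ℝ) : ‖e t‖ ≤ 1 := by
  rw [ContinuousMap.norm_le _ zero_le_one]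
  intro x
  rw [e_apply, norm_expc]

lemma continuous_e : Continuous e := by
  apply ContinuousMap.continuous_of_continuous_uncurry
  show Continuous (fun q : ℝ × X => Complex.exp (Complex.I * ((q.1 * (q.2 : ℝ) : ℝ) : ℂ)))
  fun_prop

/-- the resolvent function -/
noncomputable def r : C(X, ℂ) :=
  ⟨fun x => 1 / (1 - Complex.I * ((x : ℝ) : ℂ)), by
    apply Continuous.div continuous_const (by fun_prop)
    intro x
    exact one_sub_ne x⟩

lemma v_eq : v = 1 - (2 : ℂ) • r := by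
  ext x
  rfl

lemma integrable_e : IntegrableOn (fun t : ℝ => ((Real.exp (-t) : ℝ) : ℂ) • e t) (Ioi 0) := by
  apply Integrable.mono' (integrableOn_exp_neg_Ioi 0)
  · apply Continuous.aestronglyMeasurable
    have := continuous_e
    fun_prop
  · filter_upwards with t
    rw [norm_smul, Complex.norm_real, Real.norm_of_nonneg (Real.exp_pos _).le]
    have := norm_e_le t
    have := Real.exp_pos (-t)
    nlinarith

lemma integral_e : ∫ t in Ioi (0 : ℝ), ((Real.exp (-t) : ℝ) : ℂ) • e t = r := by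
  ext x
  have h1 := (ContinuousMap.evalCLM ℂ x).integral_comp_comm integrable_e
  have h2 : (∫ t in Ioi (0 : ℝ), ((Real.exp (-t) : ℝ) : ℂ) • e t) x =
      ∫ t in Ioi (0 : ℝ), (ContinuousMap.evalCLM ℂ x) (((Real.exp (-t) : ℝ) : ℂ) • e t) := by
    rw [h1]; rfl
  rw [h2]
  have h3 : ∀ t : ℝ, (ContinuousMap.evalCLM ℂ x) (((Real.exp (-t) : ℝ) : ℂ) • e t) =
      Complex.exp ((-1 + Complex.I * ((x : ℝ) : ℂ)) * t) := by
    intro t
    show ((Real.exp (-t) : ℝ) : ℂ) • (e t x) = _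
    rw [e_apply, smul_eq_mul, Complex.ofReal_exp, ← Complex.exp_add]
    congr 1
    push_cast
    ring
  simp only [h3]
  rw [integral_exp_mul_complex_Ioi (by simp)]
  show _ = 1 / (1 - Complex.I * ((x : ℝ) : ℂ))
  rw [Complex.ofReal_zero, mul_zero, Complex.exp_zero]
  have h4 := one_sub_ne x
  have h5 : (-1 + Complex.I * ((x : ℝ) : ℂ)) ≠ 0 := by
    intro h
    apply h4
    linear_combination -h
  rw [div_eq_div_iff h5 h4]
  ring

lemma cogen (z : H) : z - (2 : ℂ) • ∫ t in Ioi (0 : ℝ), ((Real.exp (-t) : ℝ) : ℂ) • rep (e t) z =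
    rep v z := by
  have h1 := (act z).integral_comp_comm integrable_e
  have h2 : ∀ t : ℝ, (act z) (((Real.exp (-t) : ℝ) : ℂ) • e t) =
      ((Real.exp (-t) : ℝ) : ℂ) • rep (e t) z := by
    intro t
    rw [map_smul]
    rfl
  simp only [h2] at h1
  rw [h1, integral_e, v_eq, map_sub, map_one, map_smul]
  rfl

lemma cogen_iter (n : ℕ) (z : H) : (fun z : H => z - (2 : ℂ) •
      ∫ t in Ioi (0 : ℝ), ((Real.exp (-t) : ℝ) : ℂ) • rep (e t) z)^[n] z = rep (v ^ n) z := by
  induction n with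
  | zero =>
    rw [Function.iterate_zero, pow_zero, map_one]
    rfl
  | succ n ih =>
    rw [Function.iterate_succ_apply', ih, cogen, pow_succ', map_mul]
    rfl

/-- vectors from functions -/
noncomputable def vec (f : C(X, ℂ)) : H := ((st.toPreGNS f : st.PreGNS) : H)

lemma rep_vec (f g : C(X, ℂ)) : rep f (vec g) = vec (f * g) :=
  PositiveLinearMap.gnsNonUnitalStarAlgHom_apply_coe (f := st) (a := f) (b := st.toPreGNS g)

lemma inner_rep (f g h : C(X, ℂ)) : inner ℂ (rep f (vec g)) (vec h) = st (star (f * g) * h) := by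
  rw [rep_vec]
  unfold vec
  rw [UniformSpace.Completion.inner_coe]
  rfl

lemma dense_vec : DenseRange vec := by
  have h1 : DenseRange (fun x : st.PreGNS => (x : st.GNS)) :=
    UniformSpace.Completion.denseRange_coe
  have h2 : Function.Surjective (fun f : C(X, ℂ) => st.toPreGNS f) := st.toPreGNS.surjective
  exact h1.comp h2.denseRange (UniformSpace.Completion.continuous_coe _)

/-- weak convergence to zero can be checked on a dense set -/
lemma weak_dense {K : Type*} [NormedAddCommGroup K] [InnerProductSpace ℂ K] (S : ℕ → K →L[ℂ] K)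
    (hS : ∀ n, ‖S n‖ ≤ 1) {ι : Type*} (d : ι → K) (hd : DenseRange d)
    (h : ∀ i j, Tendsto (fun n => (inner ℂ (S n (d i)) (d j) : ℂ)) atTop (𝓝 0)) (x y : K) :
    Tendsto (fun n => (inner ℂ (S n x) y : ℂ)) atTop (𝓝 0) := by
  rw [Metric.tendsto_atTop]
  intro ε hε
  obtain ⟨δ, hδ, hδ1, hδ2⟩ : ∃ δ : ℝ, 0 < δ ∧ δ ≤ 1 ∧ δ * (‖x‖ + ‖y‖ + 2) < ε := by
    refine ⟨min 1 (ε / (2 * (‖x‖ + ‖y‖ + 2))), by positivity, min_le_left _ _, ?_⟩
    have h1 : 0 < ‖x‖ + ‖y‖ + 2 := by positivity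
    calc min 1 (ε / (2 * (‖x‖ + ‖y‖ + 2))) * (‖x‖ + ‖y‖ + 2)
        ≤ (ε / (2 * (‖x‖ + ‖y‖ + 2))) * (‖x‖ + ‖y‖ + 2) := by
          gcongr
          exact min_le_right _ _
      _ = ε / 2 := by field_simp
      _ < ε := by linarith
  obtain ⟨i, hi⟩ := hd.exists_dist_lt x hδ
  obtain ⟨j, hj⟩ := hd.exists_dist_lt y hδ
  have hpos : 0 < ε - δ * (‖x‖ + ‖y‖ + 1) := by
    have : δ * (‖x‖ + ‖y‖ + 1) ≤ δ * (‖x‖ + ‖y‖ + 2) := by gcongr; norm_num
    linarith
  obtain ⟨N, hN⟩ := Metric.tendsto_atTop.1 (h i j) _ hpos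
  refine ⟨N, fun n hn => ?_⟩
  have h1 := hN n hn
  rw [dist_zero_right] at h1 ⊢
  have e1 : (inner ℂ (S n x) y : ℂ) = inner ℂ (S n (d i)) (d j) + inner ℂ (S n (x - d i)) y +
      inner ℂ (S n (d i)) (y - d j) := by
    rw [map_sub, inner_sub_left, inner_sub_right]
    ring
  rw [dist_eq_norm] at hi hj
  have h2 : ‖(inner ℂ (S n (x - d i)) y : ℂ)‖ ≤ δ * ‖y‖ := by
    refine (norm_inner_le_norm _ _).trans ?_
    have h3 : ‖S n (x - d i)‖ ≤ 1 * ‖x - d i‖ :=
      ((S n).le_opNorm _).trans (mul_le_mul_of_nonneg_right (hS n) (norm_nonneg _))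
    gcongr
    linarith
  have h3 : ‖(inner ℂ (S n (d i)) (y - d j) : ℂ)‖ ≤ (‖x‖ + 1) * δ := by
    refine (norm_inner_le_norm _ _).trans ?_
    have h4 : ‖S n (d i)‖ ≤ 1 * ‖d i‖ :=
      ((S n).le_opNorm _).trans (mul_le_mul_of_nonneg_right (hS n) (norm_nonneg _))
    have h5 : ‖d i‖ ≤ ‖x‖ + δ := by
      have : d i = x - (x - d i) := by abel
      rw [this]
      exact (norm_sub_le _ _).trans (by linarith)
    apply mul_le_mul _ hj.le (norm_nonneg _) (by positivity)
    linarith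
  rw [e1]
  have h4 := norm_add_le ((inner ℂ (S n (d i)) (d j) : ℂ) + inner ℂ (S n (x - d i)) y)
    (inner ℂ (S n (d i)) (y - d j))
  have h5 := norm_add_le (inner ℂ (S n (d i)) (d j) : ℂ) (inner ℂ (S n (x - d i)) y)
  nlinarith

lemma cogen_stable (x y : H) : Tendsto (fun n : ℕ => (inner ℂ (rep (v ^ n) x) y : ℂ)) atTop
    (𝓝 0) := by
  apply weak_dense (fun n => rep (v ^ n)) _ vec dense_vec
  · intro f g
    simp only [inner_rep]
    have h1 : ∀ n : ℕ, star (v ^ n * f) * g = star v ^ n * (star f * g) := by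
      intro n
      rw [star_mul, star_pow]
      ring
    simp only [h1]
    exact decay _
  · intro n
    refine (rep_norm_le _).trans ?_
    have h1 : ‖v ^ n‖ = ‖star v ^ n‖ := by rw [← norm_star (v ^ n), star_pow]
    rw [h1]
    exact norm_star_v_pow n

lemma semigroup_not_stable : ¬ Tendsto (fun t : ℝ => (inner ℂ (rep (e t) (vec 1)) (vec 1) : ℂ))
    atTop (𝓝 0) := by
  simp only [inner_rep, mul_one, star_e]
  exact no_decay

end Pool.Agent.V11113.Cog
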