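import Pool.Agent.V11113.Cog.State

/-!
# Decay of the powers of the cogenerator in the limit state
-/

set_option autoImplicit false
open Set MeasureTheory Filter Topology
open scoped ComplexOrder

namespace Pool.Agent.V11113.Cog

/-- thresholds -/
noncomputable def a (k : ℕ) : ℝ := 2 ^ k * B k ^ 3

lemma a_ge (k : ℕ) : 2 ^ k ≤ a k := by
  unfold a
  have h1 : 1 ≤ B k ^ 3 := one_le_pow₀ (B_one_le k)
  have h2 : (0 : ℝ) < 2 ^ k := by positivity
  nlinarith

lemma a_mono : Monotone a := by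
  intro i j hij
  unfold a
  have h1 := B_mono hij
  have h2 := B_pos i
  have h3 : (2 : ℝ) ^ i ≤ 2 ^ j := pow_le_pow_right₀ (by norm_num) hij
  gcongr

lemma exists_scale (k₀ : ℕ) (n : ℝ) (hn : a k₀ ≤ n) : ∃ k, k₀ ≤ k ∧ a k ≤ n ∧ n ≤ a (k + 1) := by
  classical
  have hex : ∃ j, n < a j := by
    obtain ⟨j, hj⟩ := pow_unbounded_of_one_lt n (by norm_num : (1 : ℝ) < 2)
    exact ⟨j, hj.trans_le (a_ge j)⟩
  have h1 := Nat.find_spec hex
  have h2 : k₀ < Nat.find hex := by
    by_contra hcon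
    push Not at hcon
    have := a_mono hcon
    linarith
  obtain ⟨k, hk⟩ := Nat.exists_eq_succ_of_ne_zero (by omega : Nat.find hex ≠ 0)
  refine ⟨k, by omega, ?_, ?_⟩
  · have := Nat.find_min hex (m := k) (by omega)
    linarith
  · rw [hk] at h1
    exact h1.le

lemma tendsto_sqrt_two : Tendsto (fun k : ℕ => 1 / Real.sqrt 2 ^ k) atTop (𝓝 0) := by
  have h1 : (1 : ℝ) < Real.sqrt 2 := by
    rw [Real.lt_sqrt (by norm_num)]; norm_num
  have h2 : Tendsto (fun k : ℕ => (1 / Real.sqrt 2) ^ k) atTop (𝓝 0) := by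
    apply tendsto_pow_atTop_nhds_zero_of_lt_one (by positivity)
    rw [div_lt_one (by positivity)]
    exact h1
  refine h2.congr fun k => ?_
  rw [div_pow, one_pow]

/-- decay for smooth functions -/
lemma decay_smooth {p p' : ℝ → ℂ} {M M' : ℝ} (hp : ∀ x, HasDerivAt p (p' x) x)
    (hp' : Continuous p') (hM : ∀ x ∈ Icc (1 : ℝ) 2, ‖p x‖ ≤ M)
    (hM' : ∀ x ∈ Icc (1 : ℝ) 2, ‖p' x‖ ≤ M') (f : C(X, ℂ)) (hf : ∀ x : X, f x = p x) :
    Tendsto (fun n : ℕ => st (star v ^ n * f)) atTop (𝓝 0) := by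
  rw [Metric.tendsto_atTop]
  intro ε hε
  obtain ⟨k₀, hk₀⟩ := (Metric.tendsto_atTop.1 (tendsto_sqrt_two.const_mul (80 * M + 20 * M'))) ε hε
  refine ⟨⌈a k₀⌉₊, fun n hn => ?_⟩
  have hn' : a k₀ ≤ n := (Nat.le_ceil _).trans (by exact_mod_cast hn)
  obtain ⟨k, hk, h1, h2⟩ := exists_scale k₀ n hn'
  have h3 := hk₀ k hk
  rw [mul_zero, dist_zero_right] at h3
  rw [dist_zero_right]
  refine lt_of_le_of_lt ?_ h3
  have h4 := st_bound (f := star v ^ n * f) (z := 0) (r := (80 * M + 20 * M') / Real.sqrt 2 ^ k)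
    (k + 1) (by
      intro K hK
      rw [sub_zero]
      have h5 := vn_est hp hp' hM hM' n k K h1 h2 hK
      have e1 : L K (ext (star v ^ n * f)) = (-1) ^ n * L K (fun x => p x *
          Complex.exp (Complex.I * ((-(2 * (n : ℝ)) * Real.arctan x : ℝ) : ℂ))) := by
        unfold L
        rw [← intervalIntegral.integral_const_mul]
        apply intervalIntegral.integral_congr
        intro x hx
        rw [uIcc_of_le one_le_two] at hx
        beta_reduce
        rw [ext_of_mem _ hx, ContinuousMap.mul_apply, star_v_pow_apply, hf]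
        ring
      rw [e1, norm_mul, norm_pow, norm_neg, norm_one, one_pow, one_mul]
      exact h5)
  rw [sub_zero] at h4
  refine h4.trans (le_trans (le_of_eq ?_) (Real.le_norm_self _))
  ring

lemma decay_poly (q r : Polynomial ℝ) (f : C(X, ℂ))
    (hf : ∀ x : X, f x = ((q.eval (x : ℝ) : ℝ) : ℂ) + Complex.I * ((r.eval (x : ℝ) : ℝ) : ℂ)) :
    Tendsto (fun n : ℕ => st (star v ^ n * f)) atTop (𝓝 0) := by
  have hd : ∀ x : ℝ, HasDerivAt (fun x : ℝ => ((q.eval x : ℝ) : ℂ) + Complex.I * ((r.eval x : ℝ) : ℂ))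
      (((q.derivative.eval x : ℝ) : ℂ) + Complex.I * ((r.derivative.eval x : ℝ) : ℂ)) x := by
    intro x
    exact (q.hasDerivAt x).ofReal_comp.add ((r.hasDerivAt x).ofReal_comp.const_mul Complex.I)
  have hc : Continuous (fun x : ℝ => ((q.eval x : ℝ) : ℂ) + Complex.I * ((r.eval x : ℝ) : ℂ)) := by
    have := q.continuous
    have := r.continuous
    fun_prop
  have hc' : Continuous (fun x : ℝ => ((q.derivative.eval x : ℝ) : ℂ) +
      Complex.I * ((r.derivative.eval x : ℝ) : ℂ)) := by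
    have := q.derivative.continuous
    have := r.derivative.continuous
    fun_prop
  obtain ⟨M, hM⟩ := (isCompact_Icc (a := (1 : ℝ)) (b := 2)).exists_bound_of_continuousOn
    hc.continuousOn
  obtain ⟨M', hM'⟩ := (isCompact_Icc (a := (1 : ℝ)) (b := 2)).exists_bound_of_continuousOn
    hc'.continuousOn
  exact decay_smooth hd hc' hM hM' f hf

/-- decay for all continuous functions -/
lemma decay (f : C(X, ℂ)) : Tendsto (fun n : ℕ => st (star v ^ n * f)) atTop (𝓝 0) := by
  rw [Metric.tendsto_atTop]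
  intro ε hε
  set fr : C(Icc (1 : ℝ) 2, ℝ) := ⟨fun x => (f x).re, by fun_prop⟩ with hfr
  set fi : C(Icc (1 : ℝ) 2, ℝ) := ⟨fun x => (f x).im, by fun_prop⟩ with hfi
  obtain ⟨q, hq⟩ := exists_polynomial_near_continuousMap 1 2 fr (ε / 8) (by positivity)
  obtain ⟨r, hr⟩ := exists_polynomial_near_continuousMap 1 2 fi (ε / 8) (by positivity)
  set g : C(X, ℂ) := ⟨fun x => ((q.eval (x : ℝ) : ℝ) : ℂ) + Complex.I * ((r.eval (x : ℝ) : ℝ) : ℂ), by
    have := q.continuous
    have := r.continuous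
    fun_prop⟩ with hg
  have hfg : ‖f - g‖ ≤ ε / 4 := by
    rw [ContinuousMap.norm_le _ (by positivity)]
    intro x
    have h1 : (f - g) x = -(((q.eval (x : ℝ) - (f x).re : ℝ) : ℂ)) -
        Complex.I * ((r.eval (x : ℝ) - (f x).im : ℝ) : ℂ) := by
      show f x - (((q.eval (x : ℝ) : ℝ) : ℂ) + Complex.I * ((r.eval (x : ℝ) : ℝ) : ℂ)) = _
      conv_lhs => rw [← Complex.re_add_im (f x)]
      push_cast
      ring
    rw [h1]
    refine (norm_sub_le _ _).trans ?_
    rw [norm_neg, Complex.norm_real, norm_mul, Complex.norm_I, one_mul, Complex.norm_real]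
    have h2 := ((q.toContinuousMapOn (Icc (1 : ℝ) 2)) - fr).norm_coe_le_norm x
    have h3 := ((r.toContinuousMapOn (Icc (1 : ℝ) 2)) - fi).norm_coe_le_norm x
    have h2' : ‖q.eval (x : ℝ) - (f x).re‖ ≤ ε / 8 := le_trans h2 hq.le
    have h3' : ‖r.eval (x : ℝ) - (f x).im‖ ≤ ε / 8 := le_trans h3 hr.le
    linarith
  obtain ⟨N, hN⟩ := Metric.tendsto_atTop.1 (decay_poly q r g (fun x => rfl)) (ε / 4) (by positivity)
  refine ⟨N, fun n hn => ?_⟩
  have h1 := hN n hn
  rw [dist_zero_right] at h1 ⊢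
  have e1 : st (star v ^ n * f) = st (star v ^ n * g) + st (star v ^ n * (f - g)) := by
    rw [← map_add, ← mul_add]
    congr 2
    abel
  rw [e1]
  have h2 : ‖st (star v ^ n * (f - g))‖ ≤ 2 * (1 * (ε / 4)) := by
    refine (norm_st_le _).trans ?_
    have h3 : ‖star v ^ n * (f - g)‖ ≤ 1 * (ε / 4) := by
      refine (norm_mul_le _ _).trans ?_
      exact mul_le_mul (norm_star_v_pow n) hfg (norm_nonneg _) zero_le_one
    linarith
  refine lt_of_le_of_lt (norm_add_le _ _) ?_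
  linarith

lemma fr_tendsto : Tendsto fr atTop atTop := by
  apply tendsto_atTop_mono (f := fun k : ℕ => (k : ℝ))
  · intro k
    refine le_trans ?_ (fr_ge k)
    have h1 : (k : ℝ) < 2 ^ k := by exact_mod_cast Nat.lt_two_pow_self
    have h2 : (2 : ℝ) ^ k ≤ 16 ^ k := pow_le_pow_left₀ (by norm_num) (by norm_num) k
    have h3 : (16 : ℝ) ^ k ≤ 16 ^ (k + 1) := pow_le_pow_right₀ (by norm_num) (Nat.le_succ k)
    linarith
  · exact tendsto_natCast_atTop_atTop

lemma no_decay : ¬ Tendsto (fun t : ℝ => st (e (-t))) atTop (𝓝 0) := by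
  intro h
  have h1 : Tendsto (fun k : ℕ => st (e (-fr k))) atTop (𝓝 0) := h.comp fr_tendsto
  have h2 : Tendsto (fun k : ℕ => st (e (-fr k)) - (1 / 2) * st 1) atTop (𝓝 0) := by
    apply squeeze_zero_norm (a := fun k : ℕ => (1 / 16 : ℝ) ^ k)
    · intro k
      rw [div_pow, one_pow]
      exact st_exp k
    · exact tendsto_pow_atTop_nhds_zero_of_lt_one (by norm_num) (by norm_num)
  have h3 : Tendsto (fun k : ℕ => st (e (-fr k)) - (1 / 2) * st 1) atTop
      (𝓝 (0 - (1 / 2) * st 1)) := h1.sub_const _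
  have h4 := tendsto_nhds_unique h2 h3
  have h5 : st 1 = 0 := by
    have h6 : (1 / 2 : ℂ) * st 1 = 0 := by
      rw [zero_sub] at h4
      exact neg_eq_zero.1 h4.symm
    rcases mul_eq_zero.1 h6 with h | h
    · norm_num at h
    · exact h
  have h6 := st_one
  rw [h5] at h6
  simp at h6
  norm_num at h6

end Pool.Agent.V11113.Cog
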