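import Pool.Agent.V11113.Cog.Riesz

/-!
# The two key estimates
-/

set_option autoImplicit false
open Set MeasureTheory Filter Topology

namespace Pool.Agent.V11113.Cog

lemma hasDerivAt_expc (c x : ℝ) : HasDerivAt (fun x : ℝ => Complex.exp (Complex.I * ((c * x : ℝ) : ℂ)))
    (Complex.exp (Complex.I * ((c * x : ℝ) : ℂ)) * (Complex.I * (c : ℂ))) x := by
  have h1 : HasDerivAt (fun x : ℝ => c * x) c x := by simpa using (hasDerivAt_id x).const_mul c
  exact (h1.ofReal_comp.const_mul Complex.I).cexp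

lemma norm_expc (y : ℝ) : ‖Complex.exp (Complex.I * (y : ℂ))‖ = 1 := by
  rw [mul_comm]; exact Complex.norm_exp_ofReal_mul_I _

lemma coe_P_succ (k : ℕ) (x : ℝ) : ((P (k + 1) x : ℝ) : ℂ) = (P k x : ℂ) *
    (1 + (Complex.exp (Complex.I * ((fr k * x : ℝ) : ℂ)) +
      Complex.exp (Complex.I * (((-fr k) * x : ℝ) : ℂ))) / 2) := by
  rw [P_succ, Complex.ofReal_mul, Complex.ofReal_add, cos_eq_exp, Complex.ofReal_one]

/-- the exponential with frequency `fr k` does not decay -/
lemma exp_est (k K : ℕ) (hK : k + 1 ≤ K) :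
    ‖L K (fun x => Complex.exp (Complex.I * (((-fr k) * x : ℝ) : ℂ))) - (1 / 2) * L K (fun _ => 1)‖
      ≤ 1 / 16 ^ k := by
  have hf := fr_pos k
  have hB := B_pos k
  have hcP := continuous_P k
  -- step 1
  have h1 := tail_est' (F := fun x => Complex.exp (Complex.I * (((-fr k) * x : ℝ) : ℂ)))
    (M := 1) (M' := fr k) (hasDerivAt_expc (-fr k)) (by fun_prop)
    (fun x _ => (norm_expc _).le)
    (fun x _ => by
      rw [norm_mul, norm_expc, one_mul, norm_mul, Complex.norm_I, one_mul, Complex.norm_real,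
        norm_neg, Real.norm_of_nonneg hf.le]) (k + 1) K hK
  have h1' : (5 * 1 + fr k) / (15 * 16 ^ (k + 1) * B (k + 1) ^ 3) ≤ 2 / 5 * (1 / 16 ^ (k + 1)) := by
    have h2 : fr k ≤ B (k + 1) ^ 3 := by
      have h3 := fr_le_B_succ k
      have h4 := B_one_le (k + 1)
      have h5 : B (k + 1) ≤ B (k + 1) ^ 3 := le_self_pow₀ h4 (by norm_num)
      linarith
    have h3 := fr_one_le k
    have h4 : (0 : ℝ) < 16 ^ (k + 1) := by positivity
    have h6 : 0 < B (k + 1) ^ 3 := by have := B_pos (k + 1); positivity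
    rw [div_le_iff₀ (by positivity)]
    have e : 2 / 5 * (1 / (16 : ℝ) ^ (k + 1)) * (15 * 16 ^ (k + 1) * B (k + 1) ^ 3) =
      6 * B (k + 1) ^ 3 := by field_simp; ring
    rw [e]
    linarith
  -- step 2
  have e2 : L (k + 1) (fun x => Complex.exp (Complex.I * (((-fr k) * x : ℝ) : ℂ))) -
      (1 / 2) * L k (fun _ => 1) =
      (∫ x in (1 : ℝ)..2, ((fun _ => (1 : ℂ)) x * (P k x : ℂ)) *
        Complex.exp (Complex.I * (((-fr k) * x : ℝ) : ℂ))) +
      (1 / 2) * ∫ x in (1 : ℝ)..2, ((fun _ => (1 : ℂ)) x * (P k x : ℂ)) *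
        Complex.exp (Complex.I * (((-2 * fr k) * x : ℝ) : ℂ)) := by
    unfold L
    rw [← intervalIntegral.integral_const_mul, ← intervalIntegral.integral_const_mul,
      ← intervalIntegral.integral_sub, ← intervalIntegral.integral_add]
    · apply intervalIntegral.integral_congr
      intro x _
      beta_reduce
      rw [coe_P_succ]
      have e3 : Complex.exp (Complex.I * ((-2 * fr k * x : ℝ) : ℂ)) =
          Complex.exp (Complex.I * ((-fr k * x : ℝ) : ℂ)) *
          Complex.exp (Complex.I * ((-fr k * x : ℝ) : ℂ)) := by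
        rw [← Complex.exp_add]
        congr 1
        push_cast
        ring
      have e4 : Complex.exp (Complex.I * ((-fr k * x : ℝ) : ℂ)) *
          Complex.exp (Complex.I * ((fr k * x : ℝ) : ℂ)) = 1 := by
        rw [← Complex.exp_add, ← Complex.exp_zero]
        congr 1
        push_cast
        ring
      rw [e3]
      push_cast
      push_cast at e4
      linear_combination ((P k x : ℂ) / 2) * e4
    · apply Continuous.intervalIntegrable; fun_prop
    · apply Continuous.intervalIntegrable; fun_prop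
    · apply Continuous.intervalIntegrable
      have := continuous_P (k + 1)
      fun_prop
    · apply Continuous.intervalIntegrable; fun_prop
  have h2 := lin_est (F := fun _ => (1 : ℂ)) (F' := fun _ => 0) (M := 1) (M' := 0)
    (fun x => hasDerivAt_const x 1) continuous_const (by simp) (by simp) k (-fr k)
    (neg_ne_zero.2 hf.ne')
  have h3 := lin_est (F := fun _ => (1 : ℂ)) (F' := fun _ => 0) (M := 1) (M' := 0)
    (fun x => hasDerivAt_const x 1) continuous_const (by simp) (by simp) k (-2 * fr k)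
    (mul_ne_zero (by norm_num) hf.ne')
  rw [abs_neg, abs_of_pos hf] at h2
  rw [abs_mul, abs_neg, abs_of_pos hf, abs_two] at h3
  have h23 : ‖L (k + 1) (fun x => Complex.exp (Complex.I * (((-fr k) * x : ℝ) : ℂ))) -
      (1 / 2) * L k (fun _ => 1)‖ ≤ 25 / 4 * (B k / fr k) := by
    rw [e2]
    refine (norm_add_le _ _).trans ?_
    rw [norm_mul]
    have e : ‖(1 / 2 : ℂ)‖ = 1 / 2 := by simp
    rw [e]
    have e5 : (5 * 1 + 0) * B k / fr k = 5 * (B k / fr k) := by ring
    have e6 : (5 * 1 + 0) * B k / (2 * fr k) = 5 / 2 * (B k / fr k) := by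
      field_simp; norm_num
    rw [e5] at h2
    rw [e6] at h3
    linarith
  have h4 : B k / fr k ≤ 1 / 16 ^ (k + 1) := by
    rw [B_div_fr]
    have h5 : 1 ≤ B k ^ 3 := one_le_pow₀ (B_one_le k)
    have h4 : (0 : ℝ) < 16 ^ (k + 1) := by positivity
    apply one_div_le_one_div_of_le h4
    nlinarith
  -- step 3
  have h5 := tail_est' (F := fun _ => (1 : ℂ)) (F' := fun _ => 0) (M := 1) (M' := 0)
    (fun x => hasDerivAt_const x 1) continuous_const (by simp) (by simp) k K (by omega)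
  have h6 : (5 * 1 + 0) / (15 * 16 ^ k * B k ^ 3) ≤ 1 / 3 * (1 / (16 : ℝ) ^ k) := by
    have h5 : 1 ≤ B k ^ 3 := one_le_pow₀ (B_one_le k)
    have h4 : (0 : ℝ) < 16 ^ k := by positivity
    rw [div_le_iff₀ (by positivity)]
    have e : 1 / 3 * (1 / (16 : ℝ) ^ k) * (15 * 16 ^ k * B k ^ 3) = 5 * B k ^ 3 := by
      field_simp; norm_num
    rw [e]
    linarith
  have e : L K (fun x => Complex.exp (Complex.I * (((-fr k) * x : ℝ) : ℂ))) -
      (1 / 2) * L K (fun _ => 1) =
      (L K (fun x => Complex.exp (Complex.I * (((-fr k) * x : ℝ) : ℂ))) -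
        L (k + 1) (fun x => Complex.exp (Complex.I * (((-fr k) * x : ℝ) : ℂ)))) +
      (L (k + 1) (fun x => Complex.exp (Complex.I * (((-fr k) * x : ℝ) : ℂ))) -
        (1 / 2) * L k (fun _ => 1)) - (1 / 2) * (L K (fun _ => 1) - L k (fun _ => 1)) := by ring
  rw [e]
  refine (norm_sub_le _ _).trans ?_
  refine (add_le_add (norm_add_le _ _) (le_of_eq (norm_mul _ _))).trans ?_
  have e' : ‖(1 / 2 : ℂ)‖ = 1 / 2 := by simp
  rw [e']
  have e7 : (1 : ℝ) / 16 ^ (k + 1) = 1 / 16 * (1 / 16 ^ k) := by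
    rw [pow_succ]; field_simp
  rw [e7] at h4 h1'
  have h8 : (0 : ℝ) < 1 / 16 ^ k := by positivity
  linarith [h1.trans h1', h5.trans h6]

/-- the phase function of the cogenerator -/
lemma hasDerivAt_phase (n c x : ℝ) : HasDerivAt (fun x : ℝ => -(2 * n) * Real.arctan x + c * x)
    (-(2 * n) * (1 / (1 + x ^ 2)) + c) x := by
  have h1 : HasDerivAt (fun x : ℝ => c * x) c x := by simpa using (hasDerivAt_id x).const_mul c
  exact ((Real.hasDerivAt_arctan x).const_mul _).add h1

lemma hasDerivAt_phase' (n c x : ℝ) :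
    HasDerivAt (fun x : ℝ => -(2 * n) * (1 / (1 + x ^ 2)) + c) (4 * n * x / (1 + x ^ 2) ^ 2) x := by
  have h1 : HasDerivAt (fun x : ℝ => 1 + x ^ 2) (2 * x) x := by
    simpa using (hasDerivAt_pow 2 x).const_add 1
  have h2 : (1 + x ^ 2) ≠ 0 := by positivity
  have h3 := ((h1.inv h2).const_mul (-(2 * n))).add_const c
  have e : -(2 * n) * (-(2 * x) / (1 + x ^ 2) ^ 2) = 4 * n * x / (1 + x ^ 2) ^ 2 := by ring
  rw [e] at h3
  have h4 : (fun x : ℝ => -(2 * n) * (1 / (1 + x ^ 2)) + c) =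
      (fun x => -(2 * n) * (fun x : ℝ => 1 + x ^ 2)⁻¹ x + c) := by
    funext y
    rw [one_div]
    rfl
  rw [h4]
  exact h3

lemma phase_est {A A' : ℝ → ℂ} {M M' : ℝ}
    (hA : ∀ x, HasDerivAt A (A' x) x) (hA' : Continuous A')
    (hM : ∀ x ∈ Icc (1 : ℝ) 2, ‖A x‖ ≤ M) (hM' : ∀ x ∈ Icc (1 : ℝ) 2, ‖A' x‖ ≤ M')
    (n c : ℝ) (hn : 0 < n) :
    ‖∫ x in (1 : ℝ)..2, A x * Complex.exp (Complex.I *
      ((-(2 * n) * Real.arctan x + c * x : ℝ) : ℂ))‖ ≤ 5 * (5 * M + M') / Real.sqrt n := by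
  have h1 := osc2 (A := A) (A' := A') (φ := fun x => -(2 * n) * Real.arctan x + c * x)
    (g := fun x => -(2 * n) * (1 / (1 + x ^ 2)) + c) (g' := fun x => 4 * n * x / (1 + x ^ 2) ^ 2)
    (a := 1) (b := 2) (lam := n * (2 / 5) ^ 2) (M := M) (M' := M') (by norm_num) hA hA'
    (hasDerivAt_phase n c) (hasDerivAt_phase' n c)
    (by
      apply Continuous.div (by fun_prop) (by fun_prop)
      intro x
      positivity)
    (fun x hx => by
      have := hx.1
      positivity) (by positivity)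
    (fun x hx y hy hxy => by
      have hx1 := hx.1
      have hx2 := hx.2
      have hy1 := hy.1
      have hy2 := hy.2
      have hpx : 0 < 1 + x ^ 2 := by positivity
      have hpy : 0 < 1 + y ^ 2 := by positivity
      have e : -(2 * n) * (1 / (1 + y ^ 2)) + c - (-(2 * n) * (1 / (1 + x ^ 2)) + c) =
        2 * n * (y - x) * ((y + x) / ((1 + x ^ 2) * (1 + y ^ 2))) := by
        field_simp
        ring
      rw [e]
      have h2 : 2 / 25 ≤ (y + x) / ((1 + x ^ 2) * (1 + y ^ 2)) := by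
        rw [div_le_div_iff₀ (by norm_num) (by positivity)]
        have h3 : (1 + x ^ 2) * (1 + y ^ 2) ≤ 5 * 5 := by
          apply mul_le_mul <;> nlinarith
        nlinarith
      have h4 : 0 ≤ 2 * n * (y - x) := mul_nonneg (by linarith) (by linarith)
      calc n * (2 / 5) ^ 2 * (y - x) = 2 * n * (y - x) * (2 / 25) := by ring
        _ ≤ _ := by gcongr) hM hM'
  refine h1.trans (le_of_eq ?_)
  rw [Real.sqrt_mul hn.le, Real.sqrt_sq (by norm_num)]
  have : Real.sqrt n ≠ 0 := (Real.sqrt_pos.2 hn).ne'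
  field_simp
  ring

lemma hasDerivAt_G {p p' : ℝ → ℂ} (hp : ∀ x, HasDerivAt p (p' x) x) (n x : ℝ) :
    HasDerivAt (fun x => p x * Complex.exp (Complex.I * ((-(2 * n) * Real.arctan x : ℝ) : ℂ)))
      (p' x * Complex.exp (Complex.I * ((-(2 * n) * Real.arctan x : ℝ) : ℂ)) +
        p x * (Complex.exp (Complex.I * ((-(2 * n) * Real.arctan x : ℝ) : ℂ)) *
          (Complex.I * ((-(2 * n) * (1 / (1 + x ^ 2)) : ℝ) : ℂ)))) x := by
  have h1 := ((Real.hasDerivAt_arctan x).const_mul (-(2 * n))).ofReal_comp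
  exact (hp x).mul (h1.const_mul Complex.I).cexp

/-- **Decay.** -/
lemma vn_est {p p' : ℝ → ℂ} {M M' : ℝ} (hp : ∀ x, HasDerivAt p (p' x) x) (hp' : Continuous p')
    (hM : ∀ x ∈ Icc (1 : ℝ) 2, ‖p x‖ ≤ M) (hM' : ∀ x ∈ Icc (1 : ℝ) 2, ‖p' x‖ ≤ M')
    (n : ℝ) (k K : ℕ) (hn1 : 2 ^ k * B k ^ 3 ≤ n) (hn2 : n ≤ 2 ^ (k + 1) * B (k + 1) ^ 3)
    (hK : k + 1 ≤ K) :
    ‖L K (fun x => p x * Complex.exp (Complex.I * ((-(2 * n) * Real.arctan x : ℝ) : ℂ)))‖ ≤
      (80 * M + 20 * M') / Real.sqrt 2 ^ k := by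
  have hcp : Continuous p := continuous_iff_continuousAt.2 fun x => (hp x).continuousAt
  have hB := B_pos k
  have hB1 := B_one_le k
  have hB' := B_pos (k + 1)
  have hcP := continuous_P k
  have hM0 : 0 ≤ M := (norm_nonneg _).trans (hM 1 (by simp))
  have hM'0 : 0 ≤ M' := (norm_nonneg _).trans (hM' 1 (by simp))
  have hn : 0 < n := lt_of_lt_of_le (by positivity) hn1
  have hcat : Continuous Real.arctan := Real.continuous_arctan
  have hs2 : 1 ≤ Real.sqrt 2 := Real.one_le_sqrt.2 (by norm_num)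
  -- step 1: replace K by k + 1
  have h1 := tail_est' (F := fun x => p x *
      Complex.exp (Complex.I * ((-(2 * n) * Real.arctan x : ℝ) : ℂ)))
    (M := M) (M' := M' + M * n) (hasDerivAt_G hp n)
    (by
      have h2 : Continuous (fun x : ℝ => (1 : ℝ) / (1 + x ^ 2)) := by
        apply Continuous.div continuous_const (by fun_prop)
        intro x; positivity
      fun_prop)
    (fun x hx => by
      rw [norm_mul, norm_expc, mul_one]; exact hM x hx)
    (fun x hx => by
      refine (norm_add_le _ _).trans ?_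
      rw [norm_mul, norm_expc, mul_one, norm_mul, norm_mul, norm_expc, one_mul, norm_mul,
        Complex.norm_I, one_mul, Complex.norm_real]
      have h3 : ‖-(2 * n) * (1 / (1 + x ^ 2))‖ ≤ n := by
        have hx1 := hx.1
        have h4 : 0 < 1 + x ^ 2 := by positivity
        rw [norm_mul, norm_neg, Real.norm_of_nonneg (by positivity),
          Real.norm_of_nonneg (by positivity), mul_one_div, div_le_iff₀ h4]
        have h5 : 2 ≤ 1 + x ^ 2 := by nlinarith
        nlinarith [mul_le_mul_of_nonneg_left h5 hn.le]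
      exact add_le_add (hM' x hx) (mul_le_mul (hM x hx) h3 (norm_nonneg _) hM0)) (k + 1) K hK
  have h1' : (5 * M + (M' + M * n)) / (15 * 16 ^ (k + 1) * B (k + 1) ^ 3) ≤
      (5 * M + M') / Real.sqrt 2 ^ k := by
    have hB3 : 1 ≤ B (k + 1) ^ 3 := one_le_pow₀ (B_one_le (k + 1))
    have h2 : (5 * M + (M' + M * n)) ≤ (5 * M + M') * (2 * (2 ^ (k + 1) * B (k + 1) ^ 3)) := by
      have h3 : 1 ≤ (2 : ℝ) ^ (k + 1) * B (k + 1) ^ 3 := by
        have : (1 : ℝ) ≤ 2 ^ (k + 1) := one_le_pow₀ (by norm_num)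
        nlinarith
      have h4 : M * n ≤ M * (2 ^ (k + 1) * B (k + 1) ^ 3) := by gcongr
      nlinarith
    have h3 : (5 * M + (M' + M * n)) / (15 * 16 ^ (k + 1) * B (k + 1) ^ 3) ≤
        ((5 * M + M') * (2 * (2 ^ (k + 1) * B (k + 1) ^ 3))) /
          (15 * 16 ^ (k + 1) * B (k + 1) ^ 3) := by gcongr
    refine h3.trans ?_
    have e : ((5 * M + M') * (2 * (2 ^ (k + 1) * B (k + 1) ^ 3))) /
          (15 * 16 ^ (k + 1) * B (k + 1) ^ 3) = (5 * M + M') * (2 / 15 * (1 / 8 ^ (k + 1))) := by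
      have e8 : (16 : ℝ) ^ (k + 1) = 2 ^ (k + 1) * 8 ^ (k + 1) := by
        rw [← mul_pow]; norm_num
      rw [e8]
      field_simp
    rw [e, div_eq_mul_one_div (5 * M + M')]
    apply mul_le_mul_of_nonneg_left _ (by positivity)
    have h4 : (1 : ℝ) / 8 ^ (k + 1) ≤ 1 / Real.sqrt 2 ^ k := by
      apply one_div_le_one_div_of_le (by positivity)
      have h5 : Real.sqrt 2 ≤ 8 := by
        rw [Real.sqrt_le_left (by norm_num)]; norm_num
      calc Real.sqrt 2 ^ k ≤ 8 ^ k := pow_le_pow_left₀ (Real.sqrt_nonneg _) h5 k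
        _ ≤ 8 ^ (k + 1) := pow_le_pow_right₀ (by norm_num) (Nat.le_succ k)
    have h6 : (0 : ℝ) < 1 / 8 ^ (k + 1) := by positivity
    linarith
  -- step 2: the integral with k + 1 factors
  have hAd : ∀ x, HasDerivAt (fun x => p x * (P k x : ℂ))
      (p' x * (P k x : ℂ) + p x * (dP k x : ℂ)) x :=
    fun x => (hp x).mul (hasDerivAt_P k x).ofReal_comp
  have hAc : Continuous (fun x => p' x * (P k x : ℂ) + p x * (dP k x : ℂ)) := by
    have := continuous_dP k
    fun_prop
  have hAM : ∀ x ∈ Icc (1 : ℝ) 2, ‖p x * (P k x : ℂ)‖ ≤ M * B k := fun x hx => by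
    rw [norm_mul, Complex.norm_real, Real.norm_of_nonneg (P_nonneg k x)]
    exact mul_le_mul (hM x hx) (P_le k x) (P_nonneg k x) hM0
  have hAM' : ∀ x ∈ Icc (1 : ℝ) 2, ‖p' x * (P k x : ℂ) + p x * (dP k x : ℂ)‖ ≤
      (M' + M) * B k := fun x hx => by
    refine (norm_add_le _ _).trans ?_
    rw [norm_mul, norm_mul, Complex.norm_real, Complex.norm_real,
      Real.norm_of_nonneg (P_nonneg k x), Real.norm_eq_abs, add_mul]
    exact add_le_add (mul_le_mul (hM' x hx) (P_le k x) (P_nonneg k x) hM'0)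
      (mul_le_mul (hM x hx) (abs_dP_le k x) (abs_nonneg _) hM0)
  have hph := fun c : ℝ => phase_est hAd hAc hAM hAM' n c hn
  have e2 : L (k + 1) (fun x => p x *
      Complex.exp (Complex.I * ((-(2 * n) * Real.arctan x : ℝ) : ℂ))) =
      (∫ x in (1 : ℝ)..2, (p x * (P k x : ℂ)) * Complex.exp (Complex.I *
        ((-(2 * n) * Real.arctan x + 0 * x : ℝ) : ℂ))) +
      ((∫ x in (1 : ℝ)..2, (p x * (P k x : ℂ)) * Complex.exp (Complex.I *
        ((-(2 * n) * Real.arctan x + fr k * x : ℝ) : ℂ))) +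
      ∫ x in (1 : ℝ)..2, (p x * (P k x : ℂ)) * Complex.exp (Complex.I *
        ((-(2 * n) * Real.arctan x + (-fr k) * x : ℝ) : ℂ))) / 2 := by
    unfold L
    rw [← intervalIntegral.integral_add, ← intervalIntegral.integral_div,
      ← intervalIntegral.integral_add]
    · apply intervalIntegral.integral_congr
      intro x _
      beta_reduce
      have es : ∀ c : ℝ, Complex.exp (Complex.I * ((-(2 * n) * Real.arctan x + c * x : ℝ) : ℂ)) =
          Complex.exp (Complex.I * ((-(2 * n) * Real.arctan x : ℝ) : ℂ)) *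
            Complex.exp (Complex.I * ((c * x : ℝ) : ℂ)) := by
        intro c
        rw [← Complex.exp_add]
        congr 1
        push_cast
        ring
      rw [es, es, es, coe_P_succ, zero_mul, Complex.ofReal_zero, mul_zero, Complex.exp_zero]
      ring
    · apply Continuous.intervalIntegrable; fun_prop
    · apply Continuous.intervalIntegrable; fun_prop
    · apply Continuous.intervalIntegrable; fun_prop
    · apply Continuous.intervalIntegrable; fun_prop
  have h2 : ‖L (k + 1) (fun x => p x *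
      Complex.exp (Complex.I * ((-(2 * n) * Real.arctan x : ℝ) : ℂ)))‖ ≤
      2 * (5 * (5 * (M * B k) + (M' + M) * B k) / Real.sqrt n) := by
    rw [e2]
    refine (norm_add_le _ _).trans ?_
    rw [norm_div, Complex.norm_two]
    have ha := hph 0
    have hb := hph (fr k)
    have hc := hph (-fr k)
    have hd := norm_add_le
      (∫ x in (1 : ℝ)..2, (p x * (P k x : ℂ)) * Complex.exp (Complex.I *
        ((-(2 * n) * Real.arctan x + fr k * x : ℝ) : ℂ)))
      (∫ x in (1 : ℝ)..2, (p x * (P k x : ℂ)) * Complex.exp (Complex.I *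
        ((-(2 * n) * Real.arctan x + (-fr k) * x : ℝ) : ℂ)))
    linarith
  have h3 : B k / Real.sqrt n ≤ 1 / Real.sqrt 2 ^ k := by
    have h4 : Real.sqrt 2 ^ k * B k ≤ Real.sqrt n := by
      apply Real.le_sqrt_of_sq_le
      rw [mul_pow, ← pow_mul, mul_comm k 2, pow_mul, Real.sq_sqrt (by norm_num)]
      refine le_trans ?_ hn1
      have h5 : B k ^ 2 ≤ B k ^ 3 := pow_le_pow_right₀ hB1 (by norm_num)
      gcongr
    have h6 : 0 < Real.sqrt n := Real.sqrt_pos.2 hn
    rw [div_le_div_iff₀ h6 (by positivity), one_mul, mul_comm]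
    exact h4
  have h4 : 2 * (5 * (5 * (M * B k) + (M' + M) * B k) / Real.sqrt n) ≤
      (60 * M + 10 * M') / Real.sqrt 2 ^ k := by
    have e3 : 2 * (5 * (5 * (M * B k) + (M' + M) * B k) / Real.sqrt n) =
      (60 * M + 10 * M') * (B k / Real.sqrt n) := by ring
    rw [e3, div_eq_mul_one_div (60 * M + 10 * M')]
    apply mul_le_mul_of_nonneg_left h3 (by positivity)
  have e5 : L K (fun x => p x * Complex.exp (Complex.I * ((-(2 * n) * Real.arctan x : ℝ) : ℂ))) =
      (L K (fun x => p x * Complex.exp (Complex.I * ((-(2 * n) * Real.arctan x : ℝ) : ℂ))) -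
      L (k + 1) (fun x => p x *
        Complex.exp (Complex.I * ((-(2 * n) * Real.arctan x : ℝ) : ℂ)))) +
      L (k + 1) (fun x => p x *
        Complex.exp (Complex.I * ((-(2 * n) * Real.arctan x : ℝ) : ℂ))) := by ring
  rw [e5]
  refine (norm_add_le _ _).trans ?_
  refine (add_le_add (h1.trans h1') (h2.trans h4)).trans ?_
  rw [← add_div]
  gcongr ?_ / _
  linarith

end Pool.Agent.V11113.Cog
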