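import Mathlib

/-!
# Oscillatory integrals: first and second derivative tests
-/

set_option autoImplicit false
open Set MeasureTheory Filter Topology

namespace Pool.Agent.V11113.Cog

/-- first derivative test -/
lemma osc1 {A A' : ℝ → ℂ} {φ g g' : ℝ → ℝ} {a b μ M M' : ℝ} (hab : a ≤ b)
    (hA : ∀ x, HasDerivAt A (A' x) x) (hA' : Continuous A')
    (hφ : ∀ x, HasDerivAt φ (g x) x) (hg : ∀ x, HasDerivAt g (g' x) x) (hg' : Continuous g')
    (hmono : ∀ x ∈ Icc a b, 0 ≤ g' x) (hμ : 0 < μ) (hlow : ∀ x ∈ Icc a b, μ ≤ |g x|)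
    (hM : ∀ x ∈ Icc a b, ‖A x‖ ≤ M) (hM' : ∀ x ∈ Icc a b, ‖A' x‖ ≤ M') :
    ‖∫ x in a..b, A x * Complex.exp (Complex.I * φ x)‖ ≤ (4 * M + (b - a) * M') / μ := by
  have hcA : Continuous A := continuous_iff_continuousAt.2 fun x => (hA x).continuousAt
  have hcφ : Continuous φ := continuous_iff_continuousAt.2 fun x => (hφ x).continuousAt
  have hcg : Continuous g := continuous_iff_continuousAt.2 fun x => (hg x).continuousAt
  have hM0 : 0 ≤ M := (norm_nonneg _).trans (hM a (left_mem_Icc.2 hab))
  have hg0 : ∀ x ∈ Icc a b, g x ≠ 0 := by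
    intro x hx h0
    have := hlow x hx
    rw [h0, abs_zero] at this
    linarith
  have hgc : ∀ x ∈ Icc a b, (Complex.I * (g x : ℂ)) ≠ 0 := by
    intro x hx
    exact mul_ne_zero Complex.I_ne_zero (by exact_mod_cast hg0 x hx)
  have hu : ∀ x ∈ uIcc a b, HasDerivAt (fun x => A x / (Complex.I * (g x : ℂ)))
      ((A' x * (Complex.I * (g x : ℂ)) - A x * (Complex.I * (g' x : ℂ))) /
        (Complex.I * (g x : ℂ)) ^ 2) x := by
    intro x hx
    rw [uIcc_of_le hab] at hx
    exact (hA x).div ((hg x).ofReal_comp.const_mul Complex.I) (hgc x hx)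
  have hv : ∀ x ∈ uIcc a b, HasDerivAt (fun x => Complex.exp (Complex.I * (φ x : ℂ)))
      (Complex.exp (Complex.I * (φ x : ℂ)) * (Complex.I * (g x : ℂ))) x := by
    intro x _
    exact ((hφ x).ofReal_comp.const_mul Complex.I).cexp
  have hcu' : ContinuousOn (fun x => (A' x * (Complex.I * (g x : ℂ)) -
      A x * (Complex.I * (g' x : ℂ))) / (Complex.I * (g x : ℂ)) ^ 2) (Icc a b) := by
    apply ContinuousOn.div
    · fun_prop
    · fun_prop
    · intro x hx
      exact pow_ne_zero _ (hgc x hx)
  have hiu' : IntervalIntegrable (fun x => (A' x * (Complex.I * (g x : ℂ)) -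
      A x * (Complex.I * (g' x : ℂ))) / (Complex.I * (g x : ℂ)) ^ 2) volume a b := by
    apply ContinuousOn.intervalIntegrable
    rwa [uIcc_of_le hab]
  have hiv' : IntervalIntegrable (fun x => Complex.exp (Complex.I * (φ x : ℂ)) *
      (Complex.I * (g x : ℂ))) volume a b := by
    apply Continuous.intervalIntegrable
    fun_prop
  have key := intervalIntegral.integral_mul_deriv_eq_deriv_mul hu hv hiu' hiv'
  have e1 : ∫ x in a..b, A x * Complex.exp (Complex.I * φ x) =
      ∫ x in a..b, A x / (Complex.I * (g x : ℂ)) *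
        (Complex.exp (Complex.I * (φ x : ℂ)) * (Complex.I * (g x : ℂ))) := by
    apply intervalIntegral.integral_congr
    intro x hx
    rw [uIcc_of_le hab] at hx
    have := hgc x hx
    beta_reduce
    rw [div_mul_eq_mul_div, eq_div_iff this]
    ring
  rw [e1, key]
  have hexp : ∀ x : ℝ, ‖Complex.exp (Complex.I * (φ x : ℂ))‖ = 1 := by
    intro x
    rw [mul_comm]
    exact Complex.norm_exp_ofReal_mul_I _
  have hend : ∀ x ∈ Icc a b, ‖A x / (Complex.I * (g x : ℂ)) *
      Complex.exp (Complex.I * (φ x : ℂ))‖ ≤ M / μ := by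
    intro x hx
    rw [norm_mul, hexp, mul_one, norm_div, norm_mul, Complex.norm_I, one_mul, Complex.norm_real,
      Real.norm_eq_abs]
    exact div_le_div₀ hM0 (hM x hx) hμ (hlow x hx)
  have hint : ‖∫ x in a..b, (A' x * (Complex.I * (g x : ℂ)) - A x * (Complex.I * (g' x : ℂ))) /
      (Complex.I * (g x : ℂ)) ^ 2 * Complex.exp (Complex.I * (φ x : ℂ))‖ ≤
      (b - a) * (M' / μ) + M * (2 / μ) := by
    have hM'0 : 0 ≤ M' := (norm_nonneg _).trans (hM' a (left_mem_Icc.2 hab))
    have hint1 : IntervalIntegrable (fun x => g' x / g x ^ 2) volume a b := by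
      apply ContinuousOn.intervalIntegrable
      rw [uIcc_of_le hab]
      apply ContinuousOn.div hg'.continuousOn (by fun_prop)
      intro x hx
      exact pow_ne_zero _ (hg0 x hx)
    have h2 : ∫ x in a..b, g' x / g x ^ 2 = -(g b)⁻¹ - -(g a)⁻¹ := by
      apply intervalIntegral.integral_eq_sub_of_hasDerivAt
      · intro x hx
        rw [uIcc_of_le hab] at hx
        have h3 := ((hg x).inv (hg0 x hx)).neg
        have e : -(-g' x / g x ^ 2) = g' x / g x ^ 2 := by ring
        rw [e] at h3
        exact h3
      · exact hint1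
    have h3 : ∫ x in a..b, g' x / g x ^ 2 ≤ 2 / μ := by
      rw [h2]
      have h4 : |(g b)⁻¹| ≤ 1 / μ := by
        rw [abs_inv, ← one_div]
        exact one_div_le_one_div_of_le hμ (hlow b (right_mem_Icc.2 hab))
      have h5 : |(g a)⁻¹| ≤ 1 / μ := by
        rw [abs_inv, ← one_div]
        exact one_div_le_one_div_of_le hμ (hlow a (left_mem_Icc.2 hab))
      have h6 := neg_abs_le (g b)⁻¹
      have h7 := le_abs_self (g a)⁻¹
      have e : 2 / μ = 1 / μ + 1 / μ := by ring
      rw [e]
      linarith
    calc ‖∫ x in a..b, (A' x * (Complex.I * (g x : ℂ)) - A x * (Complex.I * (g' x : ℂ))) /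
        (Complex.I * (g x : ℂ)) ^ 2 * Complex.exp (Complex.I * (φ x : ℂ))‖
        ≤ ∫ x in a..b, (M' / μ + M * (g' x / g x ^ 2)) := by
          apply intervalIntegral.norm_integral_le_of_norm_le hab
          · filter_upwards with x hx
            have hx' : x ∈ Icc a b := Ioc_subset_Icc_self hx
            have hl := hlow x hx'
            have hpos : 0 < |g x| := lt_of_lt_of_le hμ hl
            rw [norm_mul, hexp, mul_one, norm_div, norm_pow, norm_mul, Complex.norm_I, one_mul,
              Complex.norm_real, Real.norm_eq_abs]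
            have h4 : ‖A' x * (Complex.I * (g x : ℂ)) - A x * (Complex.I * (g' x : ℂ))‖ ≤
                M' * |g x| + M * g' x := by
              refine (norm_sub_le _ _).trans ?_
              rw [norm_mul, norm_mul, norm_mul, norm_mul, Complex.norm_I, one_mul, one_mul,
                Complex.norm_real, Complex.norm_real, Real.norm_eq_abs, Real.norm_eq_abs,
                abs_of_nonneg (hmono x hx')]
              have := hM x hx'
              have := hM' x hx'
              have := hmono x hx'
              gcongr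
            have h5 : (M' * |g x| + M * g' x) / |g x| ^ 2 ≤ M' / μ + M * (g' x / g x ^ 2) := by
              rw [add_div, sq_abs]
              have e1 : M' * |g x| / g x ^ 2 = M' / |g x| := by
                rw [← sq_abs]
                field_simp
              rw [e1, mul_div_assoc]
              have : M' / |g x| ≤ M' / μ := div_le_div_of_nonneg_left hM'0 hμ hl
              linarith
            refine le_trans ?_ h5
            gcongr
          · exact (intervalIntegrable_const).add (hint1.const_mul _)
      _ = (b - a) * (M' / μ) + M * ∫ x in a..b, g' x / g x ^ 2 := by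
          rw [intervalIntegral.integral_add intervalIntegrable_const (hint1.const_mul _),
            intervalIntegral.integral_const, intervalIntegral.integral_const_mul, smul_eq_mul]
      _ ≤ (b - a) * (M' / μ) + M * (2 / μ) := by gcongr
  have h1 := hend a (left_mem_Icc.2 hab)
  have h2 := hend b (right_mem_Icc.2 hab)
  refine (norm_sub_le _ _).trans ?_
  refine (add_le_add (norm_sub_le _ _) hint).trans ?_
  have e : (4 * M + (b - a) * M') / μ = M / μ + M / μ + ((b - a) * (M' / μ) + M * (2 / μ)) := by
    ring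
  rw [e]
  linarith

/-- second derivative test -/
lemma osc2 {A A' : ℝ → ℂ} {φ g g' : ℝ → ℝ} {a b lam M M' : ℝ} (hab : a ≤ b)
    (hA : ∀ x, HasDerivAt A (A' x) x) (hA' : Continuous A')
    (hφ : ∀ x, HasDerivAt φ (g x) x) (hg : ∀ x, HasDerivAt g (g' x) x) (hg' : Continuous g')
    (hmono : ∀ x ∈ Icc a b, 0 ≤ g' x) (hlam : 0 < lam)
    (hgrow : ∀ x ∈ Icc a b, ∀ y ∈ Icc a b, x ≤ y → lam * (y - x) ≤ g y - g x)
    (hM : ∀ x ∈ Icc a b, ‖A x‖ ≤ M) (hM' : ∀ x ∈ Icc a b, ‖A' x‖ ≤ M') :
    ‖∫ x in a..b, A x * Complex.exp (Complex.I * φ x)‖ ≤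
      (10 * M + 2 * (b - a) * M') / Real.sqrt lam := by
  have hcA : Continuous A := continuous_iff_continuousAt.2 fun x => (hA x).continuousAt
  have hcφ : Continuous φ := continuous_iff_continuousAt.2 fun x => (hφ x).continuousAt
  have hcg : Continuous g := continuous_iff_continuousAt.2 fun x => (hg x).continuousAt
  have hM0 : 0 ≤ M := (norm_nonneg _).trans (hM a (left_mem_Icc.2 hab))
  have hM'0 : 0 ≤ M' := (norm_nonneg _).trans (hM' a (left_mem_Icc.2 hab))
  obtain ⟨c, hc, hcx⟩ : ∃ c ∈ Icc a b, ∀ x ∈ Icc a b, lam * |x - c| ≤ |g x| := by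
    rcases le_or_gt 0 (g a) with h | h
    · refine ⟨a, left_mem_Icc.2 hab, fun x hx => ?_⟩
      have h1 := hgrow a (left_mem_Icc.2 hab) x hx hx.1
      rw [abs_of_nonneg (by linarith [hx.1])]
      exact le_trans (by linarith) (le_abs_self _)
    rcases le_or_gt (g b) 0 with h' | h'
    · refine ⟨b, right_mem_Icc.2 hab, fun x hx => ?_⟩
      have h1 := hgrow x hx b (right_mem_Icc.2 hab) hx.2
      rw [abs_of_nonpos (by linarith [hx.2])]
      exact le_trans (by linarith) (neg_le_abs _)
    · obtain ⟨c, hc, hc0⟩ : (0 : ℝ) ∈ g '' Icc a b :=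
        intermediate_value_Icc hab hcg.continuousOn ⟨h.le, h'.le⟩
      refine ⟨c, hc, fun x hx => ?_⟩
      rcases le_total c x with hcx | hcx
      · have h1 := hgrow c hc x hx hcx
        rw [hc0, sub_zero] at h1
        rw [abs_of_nonneg (by linarith)]
        exact h1.trans (le_abs_self _)
      · have h1 := hgrow x hx c hc hcx
        rw [hc0, zero_sub] at h1
        rw [abs_of_nonpos (by linarith), neg_sub]
        exact h1.trans (neg_le_abs _)
  set δ : ℝ := 1 / Real.sqrt lam with hδ
  have hs : 0 < Real.sqrt lam := Real.sqrt_pos.2 hlam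
  have hδ0 : 0 < δ := by positivity
  have hlδ : lam * δ = Real.sqrt lam := by
    rw [hδ, mul_one_div, Real.div_sqrt]
  set p := max a (c - δ) with hp
  set q := min b (c + δ) with hq
  have hap : a ≤ p := le_max_left _ _
  have hpc : p ≤ c := max_le hc.1 (by linarith)
  have hcq : c ≤ q := le_min hc.2 (by linarith)
  have hqb : q ≤ b := min_le_left _ _
  have hF : Continuous (fun x => A x * Complex.exp (Complex.I * φ x)) := by fun_prop
  have hi : ∀ x y, IntervalIntegrable (fun x => A x * Complex.exp (Complex.I * φ x)) volume x y :=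
    fun x y => hF.intervalIntegrable x y
  have e : ∫ x in a..b, A x * Complex.exp (Complex.I * φ x) =
      (∫ x in a..p, A x * Complex.exp (Complex.I * φ x)) +
      (∫ x in p..q, A x * Complex.exp (Complex.I * φ x)) +
      ∫ x in q..b, A x * Complex.exp (Complex.I * φ x) := by
    rw [intervalIntegral.integral_add_adjacent_intervals (hi a p) (hi p q),
      intervalIntegral.integral_add_adjacent_intervals (hi a q) (hi q b)]
  have hb1 : ‖∫ x in a..p, A x * Complex.exp (Complex.I * φ x)‖ ≤
      (4 * M + (b - a) * M') / Real.sqrt lam := by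
    rcases eq_or_lt_of_le hap with h | h
    · rw [← h, intervalIntegral.integral_same, norm_zero]
      have : 0 ≤ b - a := by linarith
      positivity
    · have hpe : p = c - δ := by
        rcases max_choice a (c - δ) with h' | h'
        · rw [← hp] at h'; linarith
        · exact h'
      have h1 := osc1 (A := A) (A' := A') (φ := φ) (g := g) (g' := g') (a := a) (b := p)
        (μ := Real.sqrt lam) (M := M) (M' := M') hap hA hA' hφ hg hg'
        (fun x hx => hmono x ⟨hx.1, hx.2.trans (hpc.trans hc.2)⟩) hs ?_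
        (fun x hx => hM x ⟨hx.1, hx.2.trans (hpc.trans hc.2)⟩)
        (fun x hx => hM' x ⟨hx.1, hx.2.trans (hpc.trans hc.2)⟩)
      · refine h1.trans ?_
        gcongr
        linarith [hpc, hc.2]
      · intro x hx
        have h2 := hcx x ⟨hx.1, hx.2.trans (hpc.trans hc.2)⟩
        refine le_trans ?_ h2
        rw [← hlδ]
        gcongr
        rw [abs_of_nonpos (by linarith [hx.2])]
        linarith [hx.2]
  have hb3 : ‖∫ x in q..b, A x * Complex.exp (Complex.I * φ x)‖ ≤
      (4 * M + (b - a) * M') / Real.sqrt lam := by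
    rcases eq_or_lt_of_le hqb with h | h
    · rw [h, intervalIntegral.integral_same, norm_zero]
      have : 0 ≤ b - a := by linarith
      positivity
    · have hqe : q = c + δ := by
        rcases min_choice b (c + δ) with h' | h'
        · rw [← hq] at h'; linarith
        · exact h'
      have h1 := osc1 (A := A) (A' := A') (φ := φ) (g := g) (g' := g') (a := q) (b := b)
        (μ := Real.sqrt lam) (M := M) (M' := M') hqb hA hA' hφ hg hg'
        (fun x hx => hmono x ⟨(hc.1.trans hcq).trans hx.1, hx.2⟩) hs ?_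
        (fun x hx => hM x ⟨(hc.1.trans hcq).trans hx.1, hx.2⟩)
        (fun x hx => hM' x ⟨(hc.1.trans hcq).trans hx.1, hx.2⟩)
      · refine h1.trans ?_
        gcongr
        linarith [hcq, hc.1]
      · intro x hx
        have h2 := hcx x ⟨(hc.1.trans hcq).trans hx.1, hx.2⟩
        refine le_trans ?_ h2
        rw [← hlδ]
        gcongr
        rw [abs_of_nonneg (by linarith [hx.1])]
        linarith [hx.1]
  have hb2 : ‖∫ x in p..q, A x * Complex.exp (Complex.I * φ x)‖ ≤ 2 * M / Real.sqrt lam := by
    have h1 : ‖∫ x in p..q, A x * Complex.exp (Complex.I * φ x)‖ ≤ M * |q - p| := by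
      apply intervalIntegral.norm_integral_le_of_norm_le_const
      intro x hx
      rw [uIoc_of_le (hpc.trans hcq)] at hx
      rw [norm_mul, mul_comm Complex.I, Complex.norm_exp_ofReal_mul_I, mul_one]
      exact hM x ⟨hap.trans hx.1.le, hx.2.trans hqb⟩
    refine h1.trans ?_
    have h2 : |q - p| ≤ 2 * δ := by
      rw [abs_of_nonneg (by linarith)]
      have := min_le_right b (c + δ)
      have := le_max_right a (c - δ)
      linarith
    calc M * |q - p| ≤ M * (2 * δ) := by gcongr
      _ = 2 * M / Real.sqrt lam := by rw [hδ]; ring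
  rw [e]
  refine (norm_add_le _ _).trans ?_
  refine (add_le_add (norm_add_le _ _) hb3).trans ?_
  have e2 : (10 * M + 2 * (b - a) * M') / Real.sqrt lam =
    (4 * M + (b - a) * M') / Real.sqrt lam + 2 * M / Real.sqrt lam +
      (4 * M + (b - a) * M') / Real.sqrt lam := by ring
  rw [e2]
  linarith

end Pool.Agent.V11113.Cog
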