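import Pool.Agent.V11113.Cog.Osc

/-!
# A Riesz product with very rapidly growing frequencies, on the interval from 1 to 2
-/

set_option autoImplicit false
open Set MeasureTheory Filter Topology

namespace Pool.Agent.V11113.Cog

/-- bounds for the partial products and their derivatives -/
noncomputable def B : ℕ → ℝ
  | 0 => 1
  | k + 1 => B k * (2 + 16 ^ (k + 1) * B k ^ 4)

/-- the frequencies -/
noncomputable def fr (k : ℕ) : ℝ := 16 ^ (k + 1) * B k ^ 4

lemma B_succ (k : ℕ) : B (k + 1) = B k * (2 + fr k) := rfl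

lemma B_one_le (k : ℕ) : 1 ≤ B k := by
  induction k with
  | zero => exact le_refl _
  | succ k ih =>
    rw [B_succ]
    have : 0 ≤ fr k := by unfold fr; positivity
    nlinarith

lemma B_pos (k : ℕ) : 0 < B k := lt_of_lt_of_le one_pos (B_one_le k)

lemma fr_ge (k : ℕ) : 16 ^ (k + 1) ≤ fr k := by
  unfold fr
  have h1 : 1 ≤ B k ^ 4 := one_le_pow₀ (B_one_le k)
  have h2 : (0 : ℝ) < 16 ^ (k + 1) := by positivity
  nlinarith

lemma fr_pos (k : ℕ) : 0 < fr k := lt_of_lt_of_le (by positivity) (fr_ge k)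

lemma fr_one_le (k : ℕ) : 1 ≤ fr k := le_trans (one_le_pow₀ (by norm_num)) (fr_ge k)

lemma B_le_succ (k : ℕ) : B k ≤ B (k + 1) := by
  rw [B_succ]
  have := fr_pos k
  have := B_pos k
  nlinarith

lemma B_mono : Monotone B := monotone_nat_of_le_succ B_le_succ

lemma fr_le_B_succ (k : ℕ) : fr k ≤ B (k + 1) := by
  rw [B_succ]
  have := fr_pos k
  have := B_one_le k
  nlinarith

/-- the partial products -/
noncomputable def P : ℕ → ℝ → ℝ
  | 0, _ => 1
  | k + 1, x => P k x * (1 + Real.cos (fr k * x))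

/-- their derivatives -/
noncomputable def dP : ℕ → ℝ → ℝ
  | 0, _ => 0
  | k + 1, x => dP k x * (1 + Real.cos (fr k * x)) + P k x * (-Real.sin (fr k * x) * fr k)

lemma P_succ (k : ℕ) (x : ℝ) : P (k + 1) x = P k x * (1 + Real.cos (fr k * x)) := rfl

lemma hasDerivAt_P (k : ℕ) (x : ℝ) : HasDerivAt (P k) (dP k x) x := by
  induction k with
  | zero => exact hasDerivAt_const x 1
  | succ k ih =>
    have h1 : HasDerivAt (fun x => 1 + Real.cos (fr k * x)) (-Real.sin (fr k * x) * fr k) x := by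
      have h2 : HasDerivAt (fun x : ℝ => fr k * x) (fr k) x := by
        simpa using (hasDerivAt_id x).const_mul (fr k)
      exact h2.cos.const_add 1
    exact ih.mul h1

lemma continuous_P (k : ℕ) : Continuous (P k) :=
  continuous_iff_continuousAt.2 fun x => (hasDerivAt_P k x).continuousAt

lemma continuous_dP (k : ℕ) : Continuous (dP k) := by
  induction k with
  | zero => exact continuous_const
  | succ k ih =>
    have := continuous_P k
    show Continuous (fun x => dP k x * (1 + Real.cos (fr k * x)) +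
      P k x * (-Real.sin (fr k * x) * fr k))
    fun_prop

lemma P_nonneg (k : ℕ) (x : ℝ) : 0 ≤ P k x := by
  induction k with
  | zero => exact zero_le_one
  | succ k ih =>
    rw [P_succ]
    have := Real.neg_one_le_cos (fr k * x)
    exact mul_nonneg ih (by linarith)

lemma P_le (k : ℕ) (x : ℝ) : P k x ≤ B k := by
  induction k with
  | zero => exact le_refl _
  | succ k ih =>
    rw [P_succ, B_succ]
    have h1 := Real.neg_one_le_cos (fr k * x)
    have h2 := Real.cos_le_one (fr k * x)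
    have h3 := P_nonneg k x
    have h4 := fr_pos k
    have h5 := B_pos k
    apply mul_le_mul ih (by linarith) (by linarith) h5.le

lemma abs_dP_le (k : ℕ) (x : ℝ) : |dP k x| ≤ B k := by
  induction k with
  | zero =>
    show |(0 : ℝ)| ≤ 1
    simp
  | succ k ih =>
    show |dP k x * (1 + Real.cos (fr k * x)) + P k x * (-Real.sin (fr k * x) * fr k)| ≤ B (k + 1)
    rw [B_succ]
    have h1 := Real.neg_one_le_cos (fr k * x)
    have h2 := Real.cos_le_one (fr k * x)
    have h3 := P_nonneg k x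
    have h4 := fr_pos k
    have h5 := B_pos k
    have h6 : |dP k x * (1 + Real.cos (fr k * x))| ≤ B k * 2 := by
      rw [abs_mul, abs_of_nonneg (by linarith : 0 ≤ 1 + Real.cos (fr k * x))]
      exact mul_le_mul ih (by linarith) (by linarith) h5.le
    have h7 : |P k x * (-Real.sin (fr k * x) * fr k)| ≤ B k * fr k := by
      rw [abs_mul, abs_of_nonneg h3, abs_mul, abs_neg, abs_of_pos h4]
      have h8 := Real.abs_sin_le_one (fr k * x)
      have h9 : |Real.sin (fr k * x)| * fr k ≤ 1 * fr k := by gcongr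
      rw [one_mul] at h9
      exact mul_le_mul (P_le k x) h9 (by positivity) h5.le
    calc _ ≤ _ := abs_add_le _ _
      _ ≤ B k * 2 + B k * fr k := add_le_add h6 h7
      _ = B k * (2 + fr k) := by ring

/-- the approximating functionals -/
noncomputable def L (k : ℕ) (F : ℝ → ℂ) : ℂ := ∫ x in (1 : ℝ)..2, F x * (P k x : ℂ)

/-- product of a function with a partial product against an exponential -/
lemma lin_est {F F' : ℝ → ℂ} {M M' : ℝ} (hF : ∀ x, HasDerivAt F (F' x) x) (hF' : Continuous F')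
    (hM : ∀ x ∈ Icc (1 : ℝ) 2, ‖F x‖ ≤ M) (hM' : ∀ x ∈ Icc (1 : ℝ) 2, ‖F' x‖ ≤ M') (k : ℕ)
    (c : ℝ) (hc : c ≠ 0) :
    ‖∫ x in (1 : ℝ)..2, (F x * (P k x : ℂ)) * Complex.exp (Complex.I * ((c * x : ℝ) : ℂ))‖ ≤
      (5 * M + M') * B k / |c| := by
  have hM0 : 0 ≤ M := (norm_nonneg _).trans (hM 1 (by simp))
  have hM'0 : 0 ≤ M' := (norm_nonneg _).trans (hM' 1 (by simp))
  have h1 := osc1 (A := fun x => F x * (P k x : ℂ))
    (A' := fun x => F' x * (P k x : ℂ) + F x * (dP k x : ℂ)) (φ := fun x => c * x)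
    (g := fun _ => c) (g' := fun _ => 0) (a := 1) (b := 2) (μ := |c|) (M := M * B k)
    (M' := (M' + M) * B k) (by norm_num)
    (fun x => (hF x).mul (hasDerivAt_P k x).ofReal_comp)
    (by
      have h1 := continuous_P k
      have h2 := continuous_dP k
      have h3 : Continuous F := continuous_iff_continuousAt.2 fun x => (hF x).continuousAt
      fun_prop)
    (fun x => by simpa using (hasDerivAt_id x).const_mul c)
    (fun x => hasDerivAt_const x c) continuous_const (fun _ _ => le_refl _)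
    (abs_pos.2 hc) (fun _ _ => le_refl _)
    (fun x hx => by
      rw [norm_mul, Complex.norm_real, Real.norm_of_nonneg (P_nonneg k x)]
      exact mul_le_mul (hM x hx) (P_le k x) (P_nonneg k x) hM0)
    (fun x hx => by
      refine (norm_add_le _ _).trans ?_
      rw [norm_mul, norm_mul, Complex.norm_real, Complex.norm_real,
        Real.norm_of_nonneg (P_nonneg k x), Real.norm_eq_abs, add_mul]
      exact add_le_add (mul_le_mul (hM' x hx) (P_le k x) (P_nonneg k x) hM'0)
        (mul_le_mul (hM x hx) (abs_dP_le k x) (abs_nonneg _) hM0))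
  refine h1.trans (le_of_eq ?_)
  ring

lemma cos_eq_exp (c x : ℝ) : ((Real.cos (c * x) : ℝ) : ℂ) =
    (Complex.exp (Complex.I * ((c * x : ℝ) : ℂ)) +
      Complex.exp (Complex.I * (((-c) * x : ℝ) : ℂ))) / 2 := by
  rw [Complex.ofReal_cos, Complex.cos]
  congr 2
  · rw [mul_comm]
  · congr 1
    push_cast
    ring

/-- one step -/
lemma step_est {F F' : ℝ → ℂ} {M M' : ℝ} (hF : ∀ x, HasDerivAt F (F' x) x) (hF' : Continuous F')
    (hM : ∀ x ∈ Icc (1 : ℝ) 2, ‖F x‖ ≤ M) (hM' : ∀ x ∈ Icc (1 : ℝ) 2, ‖F' x‖ ≤ M') (k : ℕ) :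
    ‖L (k + 1) F - L k F‖ ≤ (5 * M + M') * B k / fr k := by
  have hcF : Continuous F := continuous_iff_continuousAt.2 fun x => (hF x).continuousAt
  have hcP := continuous_P k
  have e : L (k + 1) F - L k F =
      ((∫ x in (1 : ℝ)..2, (F x * (P k x : ℂ)) * Complex.exp (Complex.I * ((fr k * x : ℝ) : ℂ))) +
      ∫ x in (1 : ℝ)..2, (F x * (P k x : ℂ)) *
        Complex.exp (Complex.I * (((-fr k) * x : ℝ) : ℂ))) / 2 := by
    unfold L
    rw [← intervalIntegral.integral_sub, ← intervalIntegral.integral_add,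
      ← intervalIntegral.integral_div]
    · apply intervalIntegral.integral_congr
      intro x _
      beta_reduce
      rw [P_succ, Complex.ofReal_mul, Complex.ofReal_add, cos_eq_exp]
      push_cast
      ring
    · apply Continuous.intervalIntegrable; fun_prop
    · apply Continuous.intervalIntegrable; fun_prop
    · apply Continuous.intervalIntegrable
      have := continuous_P (k + 1)
      fun_prop
    · apply Continuous.intervalIntegrable; fun_prop
  rw [e, norm_div, Complex.norm_two]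
  have h1 := lin_est hF hF' hM hM' k (fr k) (fr_pos k).ne'
  have h2 := lin_est hF hF' hM hM' k (-fr k) (neg_ne_zero.2 (fr_pos k).ne')
  rw [abs_of_pos (fr_pos k)] at h1
  rw [abs_neg, abs_of_pos (fr_pos k)] at h2
  rw [div_le_iff₀ (by norm_num : (0 : ℝ) < 2)]
  refine (norm_add_le _ _).trans ?_
  linarith

lemma B_div_fr (j : ℕ) : B j / fr j = 1 / (16 ^ (j + 1) * B j ^ 3) := by
  unfold fr
  have := (B_pos j).ne'
  field_simp

/-- all steps -/
lemma tail_est {F F' : ℝ → ℂ} {M M' : ℝ} (hF : ∀ x, HasDerivAt F (F' x) x) (hF' : Continuous F')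
    (hM : ∀ x ∈ Icc (1 : ℝ) 2, ‖F x‖ ≤ M) (hM' : ∀ x ∈ Icc (1 : ℝ) 2, ‖F' x‖ ≤ M') (k m : ℕ) :
    ‖L (k + m) F - L k F‖ ≤ (5 * M + M') * ((1 - 1 / 16 ^ m) / (15 * 16 ^ k * B k ^ 3)) := by
  have hM0 : 0 ≤ M := (norm_nonneg _).trans (hM 1 (by simp))
  have hM'0 : 0 ≤ M' := (norm_nonneg _).trans (hM' 1 (by simp))
  induction m with
  | zero => simp
  | succ m ih =>
    have h1 := step_est hF hF' hM hM' (k + m)
    have h2 : B (k + m) / fr (k + m) ≤ 1 / (16 ^ (k + m + 1) * B k ^ 3) := by
      rw [B_div_fr]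
      have := B_pos k
      have := B_mono (Nat.le_add_right k m)
      gcongr
    have e : L (k + (m + 1)) F - L k F =
      (L (k + m + 1) F - L (k + m) F) + (L (k + m) F - L k F) := by
      rw [← add_assoc]; ring
    rw [e]
    refine (norm_add_le _ _).trans ?_
    have h3 : ‖L (k + m + 1) F - L (k + m) F‖ ≤
        (5 * M + M') * (1 / (16 ^ (k + m + 1) * B k ^ 3)) := by
      refine h1.trans ?_
      rw [mul_div_assoc]
      gcongr
    refine (add_le_add h3 ih).trans (le_of_eq ?_)
    rw [← mul_add]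
    congr 1
    have := (B_pos k).ne'
    field_simp
    ring

lemma tail_est' {F F' : ℝ → ℂ} {M M' : ℝ} (hF : ∀ x, HasDerivAt F (F' x) x) (hF' : Continuous F')
    (hM : ∀ x ∈ Icc (1 : ℝ) 2, ‖F x‖ ≤ M) (hM' : ∀ x ∈ Icc (1 : ℝ) 2, ‖F' x‖ ≤ M') (k K : ℕ)
    (hK : k ≤ K) :
    ‖L K F - L k F‖ ≤ (5 * M + M') / (15 * 16 ^ k * B k ^ 3) := by
  have hM0 : 0 ≤ M := (norm_nonneg _).trans (hM 1 (by simp))
  have hM'0 : 0 ≤ M' := (norm_nonneg _).trans (hM' 1 (by simp))
  obtain ⟨m, rfl⟩ := Nat.exists_eq_add_of_le hK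
  refine (tail_est hF hF' hM hM' k m).trans ?_
  rw [← mul_div_assoc]
  have h1 : (0 : ℝ) ≤ 1 / 16 ^ m := by positivity
  have := B_pos k
  gcongr
  nlinarith

end Pool.Agent.V11113.Cog
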