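import Pool.Agent.V11113.Cog.Est

/-!
# The limit state
-/

set_option autoImplicit false
open Set MeasureTheory Filter Topology
open scoped ComplexOrder

namespace Pool.Agent.V11113.Cog

/-- the interval -/
abbrev X : Type := Icc (1 : ℝ) 2

/-- extension of a function to the line -/
noncomputable def ext (f : C(X, ℂ)) : ℝ → ℂ := fun x => f (projIcc 1 2 one_le_two x)

lemma continuous_ext (f : C(X, ℂ)) : Continuous (ext f) :=
  f.continuous.comp continuous_projIcc

lemma ext_of_mem (f : C(X, ℂ)) {x : ℝ} (hx : x ∈ Icc (1 : ℝ) 2) : ext f x = f ⟨x, hx⟩ := by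
  unfold ext
  rw [projIcc_of_mem one_le_two hx]

lemma L_congr {F G : ℝ → ℂ} (k : ℕ) (h : ∀ x ∈ Icc (1 : ℝ) 2, F x = G x) : L k F = L k G := by
  apply intervalIntegral.integral_congr
  intro x hx
  rw [uIcc_of_le one_le_two] at hx
  beta_reduce
  rw [h x hx]

lemma L_one (k : ℕ) : L k (fun _ => 1) = ((∫ x in (1 : ℝ)..2, P k x : ℝ) : ℂ) := by
  unfold L
  simp only [one_mul]
  rw [intervalIntegral.integral_ofReal]

lemma L_zero_one : L 0 (fun _ => 1) = 1 := by
  rw [L_one]
  have : (∫ x in (1 : ℝ)..2, P 0 x : ℝ) = 1 := by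
    show (∫ x in (1 : ℝ)..2, (1 : ℝ)) = 1
    simp; norm_num
  rw [this]; simp

lemma L_one_near (k : ℕ) : ‖L k (fun _ => 1) - 1‖ ≤ 1 / 3 := by
  have h5 := tail_est' (F := fun _ => (1 : ℂ)) (F' := fun _ => 0) (M := 1) (M' := 0)
    (fun x => hasDerivAt_const x 1) continuous_const (by simp) (by simp) 0 k (by omega)
  rw [L_zero_one] at h5
  refine h5.trans (le_of_eq ?_)
  show (5 * 1 + 0) / (15 * 16 ^ 0 * (1 : ℝ) ^ 3) = 1 / 3
  norm_num

lemma int_P_le (k : ℕ) : ∫ x in (1 : ℝ)..2, P k x ≤ 2 := by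
  have h1 := L_one_near k
  rw [L_one] at h1
  have h2 : ‖((∫ x in (1 : ℝ)..2, P k x : ℝ) : ℂ) - 1‖ = |(∫ x in (1 : ℝ)..2, P k x) - 1| := by
    rw [← Complex.ofReal_one, ← Complex.ofReal_sub, Complex.norm_real, Real.norm_eq_abs]
  rw [h2] at h1
  have h3 := le_abs_self ((∫ x in (1 : ℝ)..2, P k x) - 1)
  linarith

lemma norm_L_le (f : C(X, ℂ)) (k : ℕ) : ‖L k (ext f)‖ ≤ 2 * ‖f‖ := by
  have h1 : ‖L k (ext f)‖ ≤ ∫ x in (1 : ℝ)..2, ‖f‖ * P k x := by
    unfold L
    apply intervalIntegral.norm_integral_le_of_norm_le one_le_two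
    · filter_upwards with x _
      rw [norm_mul, Complex.norm_real, Real.norm_of_nonneg (P_nonneg k x)]
      apply mul_le_mul_of_nonneg_right _ (P_nonneg k x)
      exact f.norm_coe_le_norm _
    · have := continuous_P k
      apply Continuous.intervalIntegrable
      fun_prop
  refine h1.trans ?_
  rw [intervalIntegral.integral_const_mul, mul_comm]
  have := int_P_le k
  gcongr

lemma L_ii (f : C(X, ℂ)) (k : ℕ) :
    IntervalIntegrable (fun x => ext f x * (P k x : ℂ)) volume 1 2 := by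
  have h1 := continuous_P k
  have h2 := continuous_ext f
  apply Continuous.intervalIntegrable
  fun_prop

lemma L_add (f g : C(X, ℂ)) (k : ℕ) : L k (ext (f + g)) = L k (ext f) + L k (ext g) := by
  unfold L
  rw [← intervalIntegral.integral_add (L_ii f k) (L_ii g k)]
  apply intervalIntegral.integral_congr
  intro x _
  show (f _ + g _) * _ = _
  exact add_mul _ _ _

lemma L_smul (c : ℂ) (f : C(X, ℂ)) (k : ℕ) : L k (ext (c • f)) = c * L k (ext f) := by
  unfold L
  rw [← intervalIntegral.integral_const_mul]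
  apply intervalIntegral.integral_congr
  intro x _
  show (c • f _) * _ = _
  rw [smul_eq_mul, mul_assoc]
  rfl

lemma L_nonneg (f : C(X, ℂ)) (hf : 0 ≤ f) (k : ℕ) : 0 ≤ L k (ext f) := by
  have h1 : ∀ x : ℝ, ext f x = (((ext f x).re : ℝ) : ℂ) := by
    intro x
    have h2 : (0 : ℂ) ≤ ext f x := hf _
    exact (Complex.eq_re_of_ofReal_le (r := 0) (by simpa using h2))
  have h3 : L k (ext f) = ((∫ x in (1 : ℝ)..2, (ext f x).re * P k x : ℝ) : ℂ) := by
    unfold L
    rw [← intervalIntegral.integral_ofReal]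
    apply intervalIntegral.integral_congr
    intro x _
    beta_reduce
    rw [Complex.ofReal_mul, ← h1]
  rw [h3, Complex.zero_le_real]
  apply intervalIntegral.integral_nonneg one_le_two
  intro x _
  have h2 : (0 : ℂ) ≤ ext f x := hf _
  exact mul_nonneg (Complex.le_def.1 h2).1 (P_nonneg k x)

/-- a free ultrafilter -/
noncomputable abbrev U : Ultrafilter ℕ := hyperfilter ℕ

lemma exists_lim (f : C(X, ℂ)) : ∃ z : ℂ, Tendsto (fun k => L k (ext f)) U (𝓝 z) := by
  have h1 : IsCompact (Metric.closedBall (0 : ℂ) (2 * ‖f‖)) := isCompact_closedBall _ _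
  obtain ⟨z, -, hz⟩ := h1.ultrafilter_le_nhds (U.map (fun k => L k (ext f))) (by
    rw [le_principal_iff, Ultrafilter.mem_coe, Ultrafilter.mem_map]
    apply Filter.univ_mem'
    intro k
    rw [mem_preimage, mem_closedBall_zero_iff]
    exact norm_L_le f k)
  exact ⟨z, hz⟩

/-- the limit -/
noncomputable def lim (f : C(X, ℂ)) : ℂ := (exists_lim f).choose

lemma lim_spec (f : C(X, ℂ)) : Tendsto (fun k => L k (ext f)) U (𝓝 (lim f)) :=
  (exists_lim f).choose_spec

/-- the limit functional as a linear map -/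
noncomputable def limL : C(X, ℂ) →ₗ[ℂ] ℂ where
  toFun := lim
  map_add' f g := by
    refine tendsto_nhds_unique (lim_spec (f + g)) ?_
    simp only [L_add]
    exact (lim_spec f).add (lim_spec g)
  map_smul' c f := by
    refine tendsto_nhds_unique (lim_spec (c • f)) ?_
    simp only [L_smul]
    exact (lim_spec f).const_mul c

/-- the limit functional -/
noncomputable def st : C(X, ℂ) →ₚ[ℂ] ℂ := PositiveLinearMap.mk₀ limL (by
  intro f hf
  exact ge_of_tendsto (lim_spec f) (Filter.Eventually.of_forall fun k => L_nonneg f hf k))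

lemma st_spec (f : C(X, ℂ)) : Tendsto (fun k => L k (ext f)) U (𝓝 (st f)) := lim_spec f

lemma st_bound {f : C(X, ℂ)} {z : ℂ} {r : ℝ} (k : ℕ) (h : ∀ K ≥ k, ‖L K (ext f) - z‖ ≤ r) :
    ‖st f - z‖ ≤ r := by
  have h1 : Tendsto (fun K => ‖L K (ext f) - z‖) U (𝓝 ‖st f - z‖) := ((st_spec f).sub_const z).norm
  apply le_of_tendsto h1
  have h2 : ∀ᶠ K in (U : Filter ℕ), k ≤ K := by
    apply Nat.hyperfilter_le_atTop
    exact eventually_ge_atTop k
  filter_upwards [h2] with K hK using h K hK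

lemma norm_st_le (f : C(X, ℂ)) : ‖st f‖ ≤ 2 * ‖f‖ := by
  have := st_bound (f := f) (z := 0) (r := 2 * ‖f‖) 0 (fun K _ => by
    rw [sub_zero]; exact norm_L_le f K)
  rwa [sub_zero] at this

/-- the exponentials -/
noncomputable def e (t : ℝ) : C(X, ℂ) :=
  ⟨fun x => Complex.exp (Complex.I * ((t * (x : ℝ) : ℝ) : ℂ)), by fun_prop⟩

lemma e_apply (t : ℝ) (x : X) : e t x = Complex.exp (Complex.I * ((t * (x : ℝ) : ℝ) : ℂ)) := rfl

lemma st_one : ‖st 1 - 1‖ ≤ 1 / 3 := by
  apply st_bound 0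
  intro K _
  have e : L K (ext 1) = L K (fun _ => 1) := L_congr K (fun x _ => rfl)
  rw [e]
  exact L_one_near K

lemma st_exp (k : ℕ) : ‖st (e (-fr k)) - (1 / 2) * st 1‖ ≤ 1 / 16 ^ k := by
  have h1 : Tendsto (fun K => ‖L K (ext (e (-fr k))) - (1 / 2) * L K (ext 1)‖) U
      (𝓝 ‖st (e (-fr k)) - (1 / 2) * st 1‖) :=
    ((st_spec _).sub ((st_spec 1).const_mul _)).norm
  apply le_of_tendsto h1
  have h2 : ∀ᶠ K in (U : Filter ℕ), k + 1 ≤ K := by
    apply Nat.hyperfilter_le_atTop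
    exact eventually_ge_atTop (k + 1)
  filter_upwards [h2] with K hK
  have e1 : L K (ext 1) = L K (fun _ => 1) := L_congr K (fun x _ => rfl)
  have e2 : L K (ext (e (-fr k))) =
      L K (fun x => Complex.exp (Complex.I * (((-fr k) * x : ℝ) : ℂ))) :=
    L_congr K (fun x hx => by rw [ext_of_mem _ hx]; rfl)
  rw [e1, e2]
  exact exp_est k K hK

/-- the symbol of the cogenerator -/
noncomputable def v : C(X, ℂ) :=
  ⟨fun x => 1 - 2 * (1 / (1 - Complex.I * ((x : ℝ) : ℂ))), by
    apply Continuous.sub continuous_const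
    apply Continuous.mul continuous_const
    apply Continuous.div continuous_const (by fun_prop)
    intro x h
    have := congrArg Complex.re h
    simp at this⟩

lemma one_sub_ne (x : ℝ) : (1 : ℂ) - Complex.I * (x : ℂ) ≠ 0 := by
  intro h
  have := congrArg Complex.re h
  simp at this

lemma exp_arctan (x : ℝ) : Complex.exp (Complex.I * ((2 * Real.arctan x : ℝ) : ℂ)) =
    (1 + Complex.I * (x : ℂ)) / (1 - Complex.I * (x : ℂ)) := by
  have h1 : Complex.exp (Complex.I * ((2 * Real.arctan x : ℝ) : ℂ)) =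
      Complex.exp (((Real.arctan x : ℝ) : ℂ) * Complex.I) ^ 2 := by
    rw [← Complex.exp_nat_mul]
    congr 1
    push_cast
    ring
  rw [h1, Complex.exp_mul_I, ← Complex.ofReal_cos, ← Complex.ofReal_sin, Real.cos_arctan,
    Real.sin_arctan, eq_div_iff (one_sub_ne x)]
  have hs : 0 < Real.sqrt (1 + x ^ 2) := Real.sqrt_pos.2 (by positivity)
  have hs2 : Real.sqrt (1 + x ^ 2) ^ 2 = 1 + x ^ 2 := Real.sq_sqrt (by positivity)
  have hsc : ((Real.sqrt (1 + x ^ 2) : ℝ) : ℂ) ≠ 0 := by exact_mod_cast hs.ne'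
  have hs2c : ((Real.sqrt (1 + x ^ 2) : ℝ) : ℂ) ^ 2 = 1 + (x : ℂ) ^ 2 := by exact_mod_cast hs2
  rw [Complex.ofReal_div, Complex.ofReal_div, Complex.ofReal_one]
  field_simp
  rw [hs2c]
  have hI := Complex.I_sq
  ring_nf
  rw [show Complex.I ^ 3 = -Complex.I by rw [pow_succ, hI]; ring, hI]
  ring

lemma v_apply (x : X) : v x = -Complex.exp (Complex.I * ((2 * Real.arctan x : ℝ) : ℂ)) := by
  rw [exp_arctan]
  show 1 - 2 * (1 / (1 - Complex.I * ((x : ℝ) : ℂ))) = _
  have := one_sub_ne x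
  field_simp
  ring

lemma star_v_pow_apply (n : ℕ) (x : X) : (star v ^ n) x =
    (-1) ^ n * Complex.exp (Complex.I * ((-(2 * (n : ℝ)) * Real.arctan x : ℝ) : ℂ)) := by
  rw [ContinuousMap.pow_apply, ContinuousMap.star_apply, v_apply, star_neg, Complex.star_def,
    ← Complex.exp_conj, map_mul, Complex.conj_I, Complex.conj_ofReal, neg_pow,
    ← Complex.exp_nat_mul]
  congr 2
  push_cast
  ring

lemma norm_star_v_pow (n : ℕ) : ‖star v ^ n‖ ≤ 1 := by
  rw [ContinuousMap.norm_le _ zero_le_one]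
  intro x
  rw [star_v_pow_apply, norm_mul, norm_expc, mul_one, norm_pow, norm_neg, norm_one, one_pow]

end Pool.Agent.V11113.Cog
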